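import Pool.Agent.Helper70.DK.Defs

/-!
# Module E9: amplification with `Q` independent copies
-/

set_option autoImplicit false

namespace Pool.Agent.Helper70.DK

open Finset

/-- the group algebra -/
abbrev e9_A (k : ℕ) := AddMonoidAlgebra ℝ (Fin k → ℤ)

/-- the `ℓ¹` norm -/
noncomputable def e9_nm {k : ℕ} (p : e9_A k) : ℝ := ∑ z ∈ p.coeff.support, |p.coeff z|

theorem e9_nm_eq {k : ℕ} (p : e9_A k) (F : Finset (Fin k → ℤ))
    (h : ∀ z, p.coeff z ≠ 0 → z ∈ F) : e9_nm p = ∑ z ∈ F, |p.coeff z| := by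
  unfold e9_nm
  refine Finset.sum_subset (fun z hz => h z (Finsupp.mem_support_iff.1 hz)) ?_
  intro z _ hz
  rw [Finsupp.notMem_support_iff] at hz
  rw [hz, abs_zero]

theorem e9_nm_nonneg {k : ℕ} (p : e9_A k) : 0 ≤ e9_nm p :=
  Finset.sum_nonneg fun _ _ => abs_nonneg _

theorem e9_nm_zero {k : ℕ} : e9_nm (0 : e9_A k) = 0 := by
  rw [e9_nm_eq 0 ∅ (fun z hz => absurd rfl hz), Finset.sum_empty]

theorem e9_nm_add {k : ℕ} (p q : e9_A k) : e9_nm (p + q) ≤ e9_nm p + e9_nm q := by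
  classical
  obtain ⟨F, hF⟩ : ∃ F, F = p.coeff.support ∪ q.coeff.support := ⟨_, rfl⟩
  have hp : ∀ z, p.coeff z ≠ 0 → z ∈ F := fun z hz => by
    rw [hF]
    exact Finset.mem_union_left _ (Finsupp.mem_support_iff.2 hz)
  have hq : ∀ z, q.coeff z ≠ 0 → z ∈ F := fun z hz => by
    rw [hF]
    exact Finset.mem_union_right _ (Finsupp.mem_support_iff.2 hz)
  have hc : ∀ z, (p + q).coeff z = p.coeff z + q.coeff z := fun z => rfl
  have hpq : ∀ z, (p + q).coeff z ≠ 0 → z ∈ F := by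
    intro z hz
    by_contra hcon
    have h1 : p.coeff z = 0 := by
      by_contra h
      exact hcon (hp z h)
    have h2 : q.coeff z = 0 := by
      by_contra h
      exact hcon (hq z h)
    rw [hc, h1, h2, add_zero] at hz
    exact hz rfl
  rw [e9_nm_eq _ F hpq, e9_nm_eq _ F hp, e9_nm_eq _ F hq, ← Finset.sum_add_distrib]
  refine Finset.sum_le_sum fun z _ => ?_
  rw [hc]
  exact abs_add_le _ _

theorem e9_nm_sum {k : ℕ} {ι : Type} (s : Finset ι) (f : ι → e9_A k) :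
    e9_nm (∑ i ∈ s, f i) ≤ ∑ i ∈ s, e9_nm (f i) :=
  Finset.le_sum_of_subadditive e9_nm e9_nm_zero.le e9_nm_add s f

theorem e9_nm_single {k : ℕ} (z : Fin k → ℤ) (c : ℝ) :
    e9_nm (AddMonoidAlgebra.single z c : e9_A k) ≤ |c| := by
  classical
  rw [e9_nm_eq _ {z} ?_]
  · rw [Finset.sum_singleton, AddMonoidAlgebra.coeff_single, Finsupp.single_eq_same]
  · intro w hw
    rw [Finset.mem_singleton]
    by_contra hne
    rw [AddMonoidAlgebra.coeff_single, Finsupp.single_apply, if_neg (Ne.symm hne)] at hw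
    exact hw rfl

theorem e9_nm_smul {k : ℕ} (c : ℝ) (p : e9_A k) : e9_nm (c • p) ≤ |c| * e9_nm p := by
  rw [e9_nm_eq (c • p) p.coeff.support ?_]
  · unfold e9_nm
    rw [Finset.mul_sum]
    refine Finset.sum_le_sum fun z _ => ?_
    rw [AddMonoidAlgebra.coeff_smul, Finsupp.smul_apply, smul_eq_mul, abs_mul]
  · intro z hz
    rw [Finsupp.mem_support_iff]
    intro h
    rw [AddMonoidAlgebra.coeff_smul, Finsupp.smul_apply, h, smul_zero] at hz
    exact hz rfl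

theorem e9_nm_mul {k : ℕ} (p q : e9_A k) : e9_nm (p * q) ≤ e9_nm p * e9_nm q := by
  have h1 : p * q = ∑ z ∈ p.coeff.support, ∑ w ∈ q.coeff.support,
      AddMonoidAlgebra.single (z + w) (p.coeff z * q.coeff w) := by
    rw [AddMonoidAlgebra.mul_def]
    rfl
  rw [h1]
  calc e9_nm (∑ z ∈ p.coeff.support, ∑ w ∈ q.coeff.support,
        (AddMonoidAlgebra.single (z + w) (p.coeff z * q.coeff w) : e9_A k))
      ≤ ∑ z ∈ p.coeff.support, e9_nm (∑ w ∈ q.coeff.support,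
        (AddMonoidAlgebra.single (z + w) (p.coeff z * q.coeff w) : e9_A k)) := e9_nm_sum _ _
    _ ≤ ∑ z ∈ p.coeff.support, ∑ w ∈ q.coeff.support, |p.coeff z| * |q.coeff w| := by
        refine Finset.sum_le_sum fun z _ => (e9_nm_sum _ _).trans ?_
        refine Finset.sum_le_sum fun w _ => (e9_nm_single _ _).trans ?_
        rw [abs_mul]
    _ = e9_nm p * e9_nm q := by
        unfold e9_nm
        rw [Finset.sum_mul_sum]

/-- the law as an element of the group algebra -/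
noncomputable def e9_L {Ω : Type} {k : ℕ} (S : Finset Ω) (f : Ω → Fin k → ℤ) : e9_A k :=
  ((S.card : ℝ)⁻¹) • ∑ x ∈ S, AddMonoidAlgebra.single (f x) (1 : ℝ)

theorem e9_nm_L {Ω : Type} {k : ℕ} (S : Finset Ω) (f : Ω → Fin k → ℤ) : e9_nm (e9_L S f) ≤ 1 := by
  unfold e9_L
  refine (e9_nm_smul _ _).trans ?_
  have h1 : e9_nm (∑ x ∈ S, (AddMonoidAlgebra.single (f x) (1 : ℝ) : e9_A k)) ≤ S.card := by
    refine (e9_nm_sum _ _).trans ?_
    have h2 : ∀ x ∈ S, e9_nm (AddMonoidAlgebra.single (f x) (1 : ℝ) : e9_A k) ≤ 1 := fun x _ => by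
      have := e9_nm_single (k := k) (f x) 1
      rwa [abs_one] at this
    refine (Finset.sum_le_sum h2).trans ?_
    rw [Finset.sum_const, nsmul_eq_mul, mul_one]
  have h3 : 0 ≤ (S.card : ℝ)⁻¹ := inv_nonneg.2 (Nat.cast_nonneg _)
  rw [abs_of_nonneg h3]
  refine (mul_le_mul_of_nonneg_left h1 h3).trans ?_
  by_cases h : (S.card : ℝ) = 0
  · rw [h, mul_zero]
    exact zero_le_one
  · rw [inv_mul_cancel₀ h]

theorem e9_law {Ω : Type} {k : ℕ} (S : Finset Ω) (f : Ω → Fin k → ℤ) (z : Fin k → ℤ) :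
    law S f z = (e9_L S f).coeff z := by
  classical
  unfold law e9_L
  rw [AddMonoidAlgebra.coeff_smul, Finsupp.smul_apply, AddMonoidAlgebra.coeff_sum,
    Finsupp.finsetSum_apply, smul_eq_mul, div_eq_inv_mul, Finset.card_filter]
  congr 1
  push_cast
  refine Finset.sum_congr rfl fun x _ => ?_
  rw [AddMonoidAlgebra.coeff_single]
  by_cases h : f x = z
  · rw [if_pos h, h, Finsupp.single_eq_same]
  · rw [if_neg h, Finsupp.single_apply, if_neg h]

theorem e9_law_zero {Ω : Type} {k : ℕ} (S : Finset Ω) (f : Ω → Fin k → ℤ) (z : Fin k → ℤ)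
    (h : ∀ x ∈ S, f x ≠ z) : law S f z = 0 := by
  have h1 : ∀ inst : DecidablePred (fun ω => f ω = z),
      @Finset.filter Ω (fun ω => f ω = z) inst S = ∅ := fun inst => Finset.filter_false_of_mem h
  unfold law
  rw [h1, Finset.card_empty, Nat.cast_zero, zero_div]

theorem e9_l1 {Ω Ω' : Type} {k : ℕ} (S : Finset Ω) (f : Ω → Fin k → ℤ) (S' : Finset Ω')
    (f' : Ω' → Fin k → ℤ) : l1 S f S' f' = e9_nm (e9_L S f - e9_L S' f') := by
  classical
  have hc : ∀ z, (e9_L S f - e9_L S' f').coeff z = law S f z - law S' f' z := by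
    intro z
    rw [AddMonoidAlgebra.coeff_sub, Finsupp.sub_apply, e9_law, e9_law]
  unfold l1
  rw [e9_nm_eq _ (@Union.union _ (@Finset.instUnion _ (Classical.decEq _))
    (@Finset.image _ _ (Classical.decEq _) f S) (@Finset.image _ _ (Classical.decEq _) f' S')) ?_]
  · refine Finset.sum_congr ?_ fun z _ => by rw [hc]
    ext z
    simp only [Finset.mem_union, Finset.mem_image]
  · intro z hz
    rw [hc] at hz
    by_contra hcon
    simp only [Finset.mem_union, Finset.mem_image, not_or, not_exists, not_and] at hcon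
    rw [e9_law_zero S f z hcon.1, e9_law_zero S' f' z hcon.2, sub_zero] at hz
    exact hz rfl

theorem e9_prod {Ω Ω' : Type} {k : ℕ} (S : Finset Ω) (S' : Finset Ω') (f : Ω → Fin k → ℤ)
    (g : Ω' → Fin k → ℤ) :
    e9_L (S ×ˢ S') (fun x => f x.1 + g x.2) = e9_L S f * e9_L S' g := by
  unfold e9_L
  rw [smul_mul_smul_comm, Finset.sum_mul_sum, Finset.card_product, Finset.sum_product]
  congr 1
  · push_cast
    rw [mul_inv]
  · refine Finset.sum_congr rfl fun x _ => Finset.sum_congr rfl fun y _ => ?_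
    rw [AddMonoidAlgebra.single_mul_single, mul_one]

theorem e9_pi {Ω : Type} {k : ℕ} (Q : ℕ) (S : Finset Ω) (h : Fin Q → Ω → Fin k → ℤ) :
    e9_L (Fintype.piFinset (fun _ : Fin Q => S)) (fun x => ∑ i, h i (x i)) =
      ∏ i, e9_L S (h i) := by
  unfold e9_L
  rw [Finset.prod_smul, Finset.prod_univ_sum, Finset.prod_const, Finset.card_univ,
    Fintype.card_fin, Fintype.card_piFinset_const]
  congr 1
  · push_cast
    rw [inv_pow]
  · refine Finset.sum_congr rfl fun x _ => ?_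
    rw [AddMonoidAlgebra.prod_single, Finset.prod_const_one]

theorem e9_zero {Ω : Type} {k : ℕ} {S : Finset Ω} (hS : S.Nonempty) :
    e9_L S (fun _ => (0 : Fin k → ℤ)) = 1 := by
  unfold e9_L
  have h0 : (S.card : ℝ) ≠ 0 := by
    exact_mod_cast hS.card_pos.ne'
  rw [Finset.sum_const, AddMonoidAlgebra.one_def]
  ext z
  rw [AddMonoidAlgebra.coeff_smul, Finsupp.smul_apply]
  have h1 : ((S.card • (AddMonoidAlgebra.single 0 (1 : ℝ) : e9_A k)).coeff z) =
      (S.card : ℝ) * ((AddMonoidAlgebra.single 0 (1 : ℝ) : e9_A k).coeff z) := by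
    rw [← nsmul_eq_mul]
    rfl
  rw [h1, smul_eq_mul, ← mul_assoc, inv_mul_cancel₀ h0, one_mul]

/-- card of `{i < A}` -/
theorem e9_card {Q A : ℕ} (h : A ≤ Q) :
    (Finset.univ.filter (fun i : Fin Q => (i : ℕ) < A)).card = A := by
  have h1 : (Finset.univ.filter (fun i : Fin Q => (i : ℕ) < A)).map Fin.valEmbedding =
      Finset.range A := by
    ext j
    simp only [Finset.mem_map, Finset.mem_filter, Finset.mem_univ, true_and,
      Fin.valEmbedding_apply, Finset.mem_range]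
    constructor
    · rintro ⟨i, hi, rfl⟩
      exact hi
    · intro hj
      exact ⟨⟨j, by omega⟩, hj, rfl⟩
  rw [← Finset.card_map Fin.valEmbedding, h1, Finset.card_range]

/-- the law with `A` copies of the first kind -/
theorem e9_mix {Ω Ω' : Type} {k : ℕ} {S S' : Finset Ω} (S2 : Finset Ω') (T : Ω → Fin k → ℤ)
    (V : Ω' → Fin k → ℤ) {Q A : ℕ} (hS : S.Nonempty) (hS' : S'.Nonempty) (hA : A ≤ Q) :
    e9_L ((Fintype.piFinset (fun _ : Fin Q => S)) ×ˢ (Fintype.piFinset (fun _ : Fin Q => S')) ×ˢ S2)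
      (fun x => (∑ i : Fin Q, if (i : ℕ) < A then T (x.1 i) else T (x.2.1 i)) + V x.2.2) =
      e9_L S T ^ A * e9_L S' T ^ (Q - A) * e9_L S2 V := by
  obtain ⟨h, hh⟩ : ∃ h : Fin Q → Ω → Fin k → ℤ, ∀ i y, h i y = if (i : ℕ) < A then T y else 0 :=
    ⟨_, fun _ _ => rfl⟩
  obtain ⟨h', hh'⟩ : ∃ h' : Fin Q → Ω → Fin k → ℤ, ∀ i y, h' i y = if (i : ℕ) < A then 0 else T y :=
    ⟨_, fun _ _ => rfl⟩
  have h1 : (fun x : (Fin Q → Ω) × (Fin Q → Ω) × Ω' =>
      (∑ i : Fin Q, if (i : ℕ) < A then T (x.1 i) else T (x.2.1 i)) + V x.2.2) =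
      fun x => (∑ i : Fin Q, h i (x.1 i)) + ((∑ i : Fin Q, h' i (x.2.1 i)) + V x.2.2) := by
    funext x
    rw [← add_assoc, ← Finset.sum_add_distrib]
    congr 1
    refine Finset.sum_congr rfl fun i _ => ?_
    rw [hh, hh']
    split_ifs
    · rw [add_zero]
    · rw [zero_add]
  have e1 := e9_prod (Fintype.piFinset (fun _ : Fin Q => S))
    ((Fintype.piFinset (fun _ : Fin Q => S')) ×ˢ S2) (fun u => ∑ i, h i (u i))
    (fun z => (∑ i, h' i (z.1 i)) + V z.2)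
  have e2 := e9_prod (Fintype.piFinset (fun _ : Fin Q => S')) S2 (fun u => ∑ i, h' i (u i)) V
  rw [h1]
  refine e1.trans ?_
  rw [e2, e9_pi, e9_pi, ← mul_assoc]
  have h2 : ∀ i : Fin Q, e9_L S (h i) = if (i : ℕ) < A then e9_L S T else 1 := by
    intro i
    have e : h i = fun y => if (i : ℕ) < A then T y else 0 := funext fun y => hh i y
    rw [e]
    split_ifs
    · rfl
    · exact e9_zero hS
  have h3 : ∀ i : Fin Q, e9_L S' (h' i) = if (i : ℕ) < A then 1 else e9_L S' T := by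
    intro i
    have e : h' i = fun y => if (i : ℕ) < A then 0 else T y := funext fun y => hh' i y
    rw [e]
    split_ifs
    · exact e9_zero hS'
    · rfl
  have h4 : ∏ i : Fin Q, e9_L S (h i) = e9_L S T ^ A := by
    rw [Finset.prod_congr rfl fun i _ => h2 i, Finset.prod_ite, Finset.prod_const,
      Finset.prod_const_one, mul_one, e9_card hA]
  have h5 : ∏ i : Fin Q, e9_L S' (h' i) = e9_L S' T ^ (Q - A) := by
    rw [Finset.prod_congr rfl fun i _ => h3 i, Finset.prod_ite, Finset.prod_const_one, one_mul,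
      Finset.prod_const]
    congr 1
    have h6 := Finset.card_filter_add_card_filter_not (s := (Finset.univ : Finset (Fin Q)))
      (fun i : Fin Q => (i : ℕ) < A)
    rw [e9_card hA, Finset.card_univ, Fintype.card_fin] at h6
    omega
  rw [h4, h5]

/-- the law on the union over `A` -/
theorem e9_range {Ω : Type} {k : ℕ} (Q : ℕ) (W : Finset Ω) (F : ℕ → Ω → Fin k → ℤ) :
    e9_L (Finset.range Q ×ˢ W) (fun x => F x.1 x.2) =
      ((Q : ℝ)⁻¹) • ∑ A ∈ Finset.range Q, e9_L W (F A) := by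
  unfold e9_L
  rw [← Finset.smul_sum, smul_smul, Finset.card_product, Finset.card_range, Finset.sum_product]
  congr 1
  push_cast
  rw [mul_inv]

theorem e9_pow {k : ℕ} (p : e9_A k) (hp : e9_nm p ≤ 1) (n : ℕ) : e9_nm (p ^ n) ≤ 1 := by
  induction n with
  | zero =>
    rw [pow_zero, AddMonoidAlgebra.one_def]
    have := e9_nm_single (k := k) 0 1
    rwa [abs_one] at this
  | succ n ih =>
    rw [pow_succ]
    refine (e9_nm_mul _ _).trans ?_
    exact mul_le_one₀ ih (e9_nm_nonneg _) hp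

theorem st_E9 : ST_E9 := by
  intro Ω Ω' k S S' S2 T V η Q hS hS' hS2 hQ hη
  obtain ⟨ρ, hρ⟩ : ∃ ρ, ρ = e9_L S T := ⟨_, rfl⟩
  obtain ⟨ρ', hρ'⟩ : ∃ ρ', ρ' = e9_L S' T := ⟨_, rfl⟩
  obtain ⟨ν, hν⟩ : ∃ ν, ν = e9_L S2 V := ⟨_, rfl⟩
  have nρ : e9_nm ρ ≤ 1 := by rw [hρ]; exact e9_nm_L S T
  have nρ' : e9_nm ρ' ≤ 1 := by rw [hρ']; exact e9_nm_L S' T
  rw [e9_l1, e9_prod, e9_prod, ← hρ, ← hρ', ← hν, ← sub_mul] at hη
  have hη0 : 0 ≤ η := le_trans (e9_nm_nonneg _) hη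
  rw [e9_l1]
  have hleft := e9_range Q ((Fintype.piFinset (fun _ : Fin Q => S)) ×ˢ
    (Fintype.piFinset (fun _ : Fin Q => S')) ×ˢ S2)
    (fun (A : ℕ) (x : (Fin Q → Ω) × (Fin Q → Ω) × Ω') =>
      (∑ i : Fin Q, if (i : ℕ) < A then T (x.1 i) else T (x.2.1 i)) + V x.2.2)
  beta_reduce at hleft
  have hright : e9_L ((Fintype.piFinset (fun _ : Fin Q => S')) ×ˢ S2)
      (fun x => (∑ i : Fin Q, T (x.1 i)) + V x.2) = ρ' ^ Q * ν := by
    have h1 := e9_prod (Fintype.piFinset (fun _ : Fin Q => S')) S2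
      (fun u : Fin Q → Ω => ∑ i : Fin Q, (fun (_ : Fin Q) (y : Ω) => T y) i (u i)) V
    rw [e9_pi, Finset.prod_const, Finset.card_univ, Fintype.card_fin] at h1
    rw [hρ', hν]
    exact h1
  rw [hleft, hright]
  have hQ0 : (0 : ℝ) < Q := by exact_mod_cast hQ
  have hmix : ∑ A ∈ Finset.range Q, e9_L ((Fintype.piFinset (fun _ : Fin Q => S)) ×ˢ
      (Fintype.piFinset (fun _ : Fin Q => S')) ×ˢ S2)
      (fun x : (Fin Q → Ω) × (Fin Q → Ω) × Ω' =>
        (∑ i : Fin Q, if (i : ℕ) < A then T (x.1 i) else T (x.2.1 i)) + V x.2.2) =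
      ∑ A ∈ Finset.range Q, ρ ^ A * ρ' ^ (Q - A) * ν := by
    refine Finset.sum_congr rfl fun A hA => ?_
    rw [Finset.mem_range] at hA
    rw [e9_mix S2 T V hS hS' hA.le, hρ, hρ', hν]
  rw [hmix]
  have hconst : ρ' ^ Q * ν = ((Q : ℝ)⁻¹) • ∑ A ∈ Finset.range Q, ρ' ^ Q * ν := by
    rw [Finset.sum_const, Finset.card_range, ← Nat.cast_smul_eq_nsmul ℝ, smul_smul,
      inv_mul_cancel₀ hQ0.ne', one_smul]
  have hdiff : ∀ A ∈ Finset.range Q,
      e9_nm (ρ ^ A * ρ' ^ (Q - A) * ν - ρ' ^ Q * ν) ≤ Q * η := by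
    intro A hA
    rw [Finset.mem_range] at hA
    have e1 : ρ ^ A * ρ' ^ (Q - A) * ν - ρ' ^ Q * ν =
        ∑ i ∈ Finset.range A, (ρ ^ i * ρ' ^ (A - 1 - i) * ρ' ^ (Q - A)) * ((ρ - ρ') * ν) := by
      have e2 := (Commute.all ρ ρ').geom_sum₂_mul A
      have e3 : ρ' ^ Q = ρ' ^ A * ρ' ^ (Q - A) := by
        rw [← pow_add]
        congr 1
        omega
      rw [e3, ← sub_mul, ← sub_mul, ← e2, ← Finset.sum_mul, ← Finset.sum_mul]
      ring
    rw [e1]
    refine (e9_nm_sum _ _).trans ?_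
    have e4 : ∀ i ∈ Finset.range A,
        e9_nm ((ρ ^ i * ρ' ^ (A - 1 - i) * ρ' ^ (Q - A)) * ((ρ - ρ') * ν)) ≤ η := by
      intro i _
      refine (e9_nm_mul _ _).trans ?_
      have e5 : e9_nm (ρ ^ i * ρ' ^ (A - 1 - i) * ρ' ^ (Q - A)) ≤ 1 := by
        refine (e9_nm_mul _ _).trans (mul_le_one₀ ?_ (e9_nm_nonneg _) (e9_pow ρ' nρ' _))
        exact (e9_nm_mul _ _).trans
          (mul_le_one₀ (e9_pow ρ nρ _) (e9_nm_nonneg _) (e9_pow ρ' nρ' _))
      calc e9_nm (ρ ^ i * ρ' ^ (A - 1 - i) * ρ' ^ (Q - A)) * e9_nm ((ρ - ρ') * ν)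
          ≤ 1 * η := mul_le_mul e5 hη (e9_nm_nonneg _) zero_le_one
        _ = η := one_mul η
    refine (Finset.sum_le_sum e4).trans ?_
    rw [Finset.sum_const, Finset.card_range, nsmul_eq_mul]
    exact mul_le_mul_of_nonneg_right (by exact_mod_cast hA.le) hη0
  rw [hconst, ← smul_sub, ← Finset.sum_sub_distrib]
  refine (e9_nm_smul _ _).trans ?_
  rw [abs_of_nonneg (inv_nonneg.2 hQ0.le)]
  have h7 : e9_nm (∑ A ∈ Finset.range Q, (ρ ^ A * ρ' ^ (Q - A) * ν - ρ' ^ Q * ν)) ≤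
      Q * (Q * η) := by
    refine (e9_nm_sum _ _).trans ((Finset.sum_le_sum hdiff).trans ?_)
    rw [Finset.sum_const, Finset.card_range, nsmul_eq_mul]
  calc (Q : ℝ)⁻¹ * e9_nm (∑ A ∈ Finset.range Q, (ρ ^ A * ρ' ^ (Q - A) * ν - ρ' ^ Q * ν))
      ≤ (Q : ℝ)⁻¹ * (Q * (Q * η)) := mul_le_mul_of_nonneg_left h7 (inv_nonneg.2 hQ0.le)
    _ = Q * η := by rw [← mul_assoc, inv_mul_cancel₀ hQ0.ne', one_mul]

end Pool.Agent.Helper70.DK
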